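import Pool.Agent.J4H23.SB.Nh

set_option autoImplicit false

namespace Pool.Agent.J4H23.SB

open Finset Pool.Agent.NPC Pool.Agent.H49R2.PC Pool.Agent.J4H63.DB

theorem ss_spec (G : BGr) : 100 * nV G ≤ 2 ^ ss G ∧ 2 ^ ss G ≤ 200 * (nV G + 1) := by
  unfold ss
  have h1 := Nat.lt_size_self (100 * (nV G + 1))
  have h2 : 0 < (100 * (nV G + 1)).size := Nat.size_pos.2 (by omega)
  have h3 : 2 ^ ((100 * (nV G + 1)).size - 1) ≤ 100 * (nV G + 1) := by
    rw [← Nat.lt_size]
    omega
  constructor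
  · omega
  · have h4 : 2 ^ (100 * (nV G + 1)).size = 2 * 2 ^ ((100 * (nV G + 1)).size - 1) := by
      rw [← pow_succ']
      congr 1
      omega
    omega

/-- **The theorem**, from its pieces -/
theorem nh_main (hIDN : S_IDN) (hTCH : S_TCH) (hPLY : S_PLY) (hRAT : S_RAT) (hCTG : S_CTG)
    (k : ℕ) (hk : 1 ≤ k) (h : SmoothedFPRAS k) : HasFPRASOn IsBip numIS := by
  obtain ⟨F, A, p, hA, hAF, hF⟩ := h
  have hFP : NPC.Poly F := poly_of_code (0, 0) hA hAF
  obtain ⟨A', hA', hAF'⟩ := exists_polyTime (hPLY F p k hFP) (0, 0)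
  -- the length of the random string
  obtain ⟨r, hr⟩ := H628R3.RO.uPoly_le (p_nV (Poly.id (α := BGr)))
  set MM : Polynomial ℕ := (Polynomial.C 200 * (r + Polynomial.C 1)) ^ k with hMM
  refine ⟨red F p k, A', Polynomial.C (k + 1) * MM ^ 3 +
    Polynomial.C 2 * p.comp (MM + Polynomial.C 4 * Polynomial.X), hA', hAF', ?_⟩
  intro G hG N hN
  set s := ss G with hs
  set m := 2 ^ (k * s) with hm
  set J := (k + 1) * s with hJ
  set x := (bits G).length + N with hx
  set P := p.eval (m + 4 * N) with hP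
  obtain ⟨hs1, hs2⟩ := ss_spec G
  rw [← hs] at hs1 hs2
  have hnV : nV G ≤ r.eval x := (hr G).trans (eval_mono r (Nat.le_add_right _ _))
  have hmm : 2 ^ s ≤ m := Nat.pow_le_pow_right (by norm_num) (Nat.le_mul_of_pos_left _ hk)
  have hnm : nV G ≤ m := by omega
  have hmx : m ≤ MM.eval x := by
    rw [hm, hMM, mul_comm k s, pow_mul]
    simp only [Polynomial.eval_pow, Polynomial.eval_mul, Polynomial.eval_add, Polynomial.eval_C]
    exact Nat.pow_le_pow_left (hs2.trans (Nat.mul_le_mul_left _ (by omega))) k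
  have hsm : s ≤ m := (Nat.lt_two_pow_self).le.trans hmm
  have hl : m * m * J ≤ (k + 1) * MM.eval x ^ 3 := by
    calc m * m * J = (k + 1) * (m * m * s) := by rw [hJ]; ring
      _ ≤ (k + 1) * (MM.eval x * MM.eval x * MM.eval x) :=
          Nat.mul_le_mul_left _ (Nat.mul_le_mul (Nat.mul_le_mul hmx hmx) (hsm.trans hmx))
      _ = _ := by ring
  have hPx : P ≤ (p.comp (MM + Polynomial.C 4 * Polynomial.X)).eval x := by
    rw [Polynomial.eval_comp]
    refine eval_mono p ?_
    simp only [Polynomial.eval_add, Polynomial.eval_mul, Polynomial.eval_C, Polynomial.eval_X]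
    omega
  set q := (Polynomial.C (k + 1) * MM ^ 3 +
    Polynomial.C 2 * p.comp (MM + Polynomial.C 4 * Polynomial.X)).eval x with hq
  have hlen : m * m * J + P + P ≤ q := by
    rw [hq]
    simp only [Polynomial.eval_add, Polynomial.eval_mul, Polynomial.eval_C, Polynomial.eval_pow]
    omega
  -- the two runs
  have h1 := hF s m J hm hJ (emb G) (4 * N) (by omega)
  have h2 := hF s m J hm hJ [] (4 * N) (by omega)
  -- the noise
  have hab : G.1.length ≤ m ∧ G.2.1.length ≤ m := by
    unfold nV at hnm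
    omega
  have h3 := hTCH m J G.1.length G.2.1.length hab.1 hab.2
  set T : List Bool → Prop := fun r => ∃ u v : ℕ, u < m ∧ v < m ∧
    (u < G.1.length ∨ v < G.2.1.length) ∧ nz m J r u v = true with hT
  have h4 : 100 * {r : List Bool | r.length = m * m * J ∧ T r}.ncard ≤ 2 ^ (m * m * J) := by
    have h5 : 2 ^ J = m * 2 ^ s := by rw [hJ, hm, ← pow_add]; congr 1; ring
    have h6 : 0 < m := by positivity
    have h7 : 100 * {r : List Bool | r.length = m * m * J ∧ T r}.ncard * (m * 2 ^ s) ≤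
        2 ^ (m * m * J) * (m * 2 ^ s) := by
      rw [h5] at h3
      calc 100 * {r : List Bool | r.length = m * m * J ∧ T r}.ncard * (m * 2 ^ s)
          = 100 * ({r : List Bool | r.length = m * m * J ∧ T r}.ncard * (m * 2 ^ s)) := by ring
        _ ≤ 100 * ((G.1.length + G.2.1.length) * m * 2 ^ (m * m * J)) := Nat.mul_le_mul_left _ h3
        _ = (100 * nV G) * (m * 2 ^ (m * m * J)) := by unfold nV; ring
        _ ≤ 2 ^ s * (m * 2 ^ (m * m * J)) := Nat.mul_le_mul_right _ hs1
        _ = 2 ^ (m * m * J) * (m * 2 ^ s) := by ring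
    exact Nat.le_of_mul_le_mul_right h7 (by positivity)
  have h5 := hCTG (m * m * J) P q
    (fun r1 r2 => Approx (4 * N) (((F (noisy m (emb G) J r1, 4 * N, r2)).1 : ℝ) /
      (F (noisy m (emb G) J r1, 4 * N, r2)).2) (numIS (noisy m (emb G) J r1)))
    (fun r1 r2 => Approx (4 * N) (((F (noisy m [] J r1, 4 * N, r2)).1 : ℝ) /
      (F (noisy m [] J r1, 4 * N, r2)).2) (numIS (noisy m [] J r1)))
    T hlen h1 h2 h4
  refine h5.trans (Nat.mul_le_mul_left _ (Set.ncard_le_ncard ?_
    ((finite_strings q).subset fun r hr => hr.1)))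
  rintro w ⟨hw, hA1, hB1, hT1⟩
  refine ⟨hw, ?_⟩
  have hav : ∀ u v : ℕ, u < m → v < m → (u < G.1.length ∨ v < G.2.1.length) →
      nz m J (w.take (m * m * J)) u v = false := by
    intro u v hu hv huv
    by_contra hcon
    exact hT1 ⟨u, v, hu, hv, huv, by simpa using hcon⟩
  have hid := hIDN G m J (w.take (m * m * J)) hG hnm hav
  exact hRAT N _ _ _ _ (nV G) (numIS G) _ _ hN (one_le_numIS G) (one_le_numIS _) (one_le_numIS _)
    hid hA1 hB1

end Pool.Agent.J4H23.SB
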