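import Pool.Agent.J4H23.SB.Stm

set_option autoImplicit false

namespace Pool.Agent.J4H23.SB

open Finset Pool.Agent.NPC Pool.Agent.H49R2.PC Pool.Agent.J4H63.DB

variable {m : ℕ} (X : Finset (Fin m × Fin m))

/-- the small sets -/
def small (m : ℕ) : Finset (Finset (Fin m)) := univ.filter (fun A => 64 * A.card ≤ m)

theorem two_pow_le : 2 ^ m ≤ (ip X).card := by
  have h : (univ.image (fun B : Finset (Fin m) => ((∅ : Finset (Fin m)), B))) ⊆ ip X := by
    intro p hp
    rw [mem_image] at hp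
    obtain ⟨B, -, rfl⟩ := hp
    simp [ip]
  have h2 := card_le_card h
  rw [card_image_of_injective _ (fun a b h => by simpa using h)] at h2
  simpa using h2

/-- the number of pairs with `t < |A| ≤ m / 64` -/
theorem mid_eq (X : Finset (Fin m × Fin m)) (t : ℕ) :
    ((ip X).filter (fun p => t < p.1.card ∧ 64 * p.1.card ≤ m)).card =
      ∑ a ∈ Finset.Ioc t (m / 64), cL X a := by
  rw [card_eq_sum_card_fiberwise (f := fun p => p.1.card) (t := Finset.Ioc t (m / 64))]
  · refine sum_congr rfl fun a ha => ?_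
    rw [cL, filter_filter]
    congr 1
    refine filter_congr fun p _ => ?_
    rw [Finset.mem_Ioc] at ha
    constructor
    · rintro ⟨-, h⟩; exact h
    · intro h
      refine ⟨⟨by omega, ?_⟩, h⟩
      have := (Nat.le_div_iff_mul_le (by norm_num : 0 < 64)).1 ha.2
      omega
  · intro p hp
    simp only [coe_filter, Set.mem_ofPred_eq] at hp
    simp only [Finset.coe_Ioc, Set.mem_Ioc]
    refine ⟨hp.2.1, ?_⟩
    rw [Nat.le_div_iff_mul_le (by norm_num)]
    omega

theorem mid_eq' (X : Finset (Fin m × Fin m)) (t : ℕ) :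
    ((ip X).filter (fun p => t < p.2.card ∧ 64 * p.2.card ≤ m)).card =
      ∑ a ∈ Finset.Ioc t (m / 64), cR X a := by
  rw [card_eq_sum_card_fiberwise (f := fun p => p.2.card) (t := Finset.Ioc t (m / 64))]
  · refine sum_congr rfl fun a ha => ?_
    rw [cR, filter_filter]
    congr 1
    refine filter_congr fun p _ => ?_
    rw [Finset.mem_Ioc] at ha
    constructor
    · rintro ⟨-, h⟩; exact h
    · intro h
      refine ⟨⟨by omega, ?_⟩, h⟩
      have := (Nat.le_div_iff_mul_le (by norm_num : 0 < 64)).1 ha.2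
      omega
  · intro p hp
    simp only [coe_filter, Set.mem_ofPred_eq] at hp
    simp only [Finset.coe_Ioc, Set.mem_Ioc]
    refine ⟨hp.2.1, ?_⟩
    rw [Nat.le_div_iff_mul_le (by norm_num)]
    omega

/-- the geometric sum -/
theorem geo {M K n : ℕ} (hn : 2 ≤ n) (c : ℕ → ℕ) (t s : ℕ)
    (h : ∀ a ∈ Finset.Ioc t s, n ^ a * c a ≤ M + n ^ a * K) :
    n ^ (t + 1) * ∑ a ∈ Finset.Ioc t s, c a ≤ 2 * M + n ^ (t + 1) * (s * K) := by
  have key : ∀ a ∈ Finset.Ioc t s, (c a : ℝ) ≤ M / (n : ℝ) ^ a + K := by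
    intro a ha
    have h1 : ((n : ℝ) ^ a) * c a ≤ M + (n : ℝ) ^ a * K := by exact_mod_cast h a ha
    have hn0 : (0 : ℝ) < (n : ℝ) ^ a := by positivity
    rw [div_add' _ _ _ hn0.ne', le_div_iff₀ hn0]
    linarith
  have h2 : ∑ a ∈ Finset.Ioc t s, (c a : ℝ) ≤ 2 * M / (n : ℝ) ^ (t + 1) + s * K := by
    refine (sum_le_sum key).trans ?_
    rw [sum_add_distrib]
    refine add_le_add ?_ ?_
    · -- geometric
      have hn1 : (2 : ℝ) ≤ n := by exact_mod_cast hn
      have : ∀ s, ∑ a ∈ Finset.Ioc t s, (M : ℝ) / (n : ℝ) ^ a ≤ 2 * M / (n : ℝ) ^ (t + 1) := by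
        intro s
        rcases le_or_gt s t with hst | hst
        · rw [Finset.Ioc_eq_empty (by omega)]
          rw [sum_empty]; positivity
        · have h3 : ∀ s, t < s → ∑ a ∈ Finset.Ioc t s, (M : ℝ) / (n : ℝ) ^ a ≤
              2 * M / (n : ℝ) ^ (t + 1) - M / (n : ℝ) ^ s := by
            intro s hs
            induction s, hs using Nat.le_induction with
            | base =>
              rw [show Finset.Ioc t (t + 1) = {t + 1} from by
                ext x; simp only [Finset.mem_Ioc, Finset.mem_singleton]; omega, sum_singleton]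
              simp only [Nat.succ_eq_add_one]
              apply le_of_eq
              ring
            | succ s hs ih =>
              rw [show Finset.Ioc t (s + 1) = insert (s + 1) (Finset.Ioc t s) from by
                ext x; simp only [Finset.mem_Ioc, Finset.mem_insert]; omega, sum_insert (by simp)]
              have h4 : (M : ℝ) / (n : ℝ) ^ (s + 1) + M / (n : ℝ) ^ (s + 1) ≤ M / (n : ℝ) ^ s := by
                rw [← two_mul, pow_succ, ← mul_div_assoc, div_le_div_iff₀ (by positivity) (by positivity)]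
                have : (0 : ℝ) ≤ M * (n : ℝ) ^ s := by positivity
                nlinarith
              linarith
          have h5 := h3 s hst
          have : (0 : ℝ) ≤ M / (n : ℝ) ^ s := by positivity
          linarith
      exact this s
    · rw [sum_const, nsmul_eq_mul]
      refine mul_le_mul_of_nonneg_right ?_ (by positivity)
      rw [Nat.card_Ioc]
      exact_mod_cast Nat.sub_le _ _
  have hn0 : (0 : ℝ) < (n : ℝ) ^ (t + 1) := by positivity
  have h3 := mul_le_mul_of_nonneg_left h2 hn0.le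
  rw [mul_add, mul_div_cancel₀ _ hn0.ne'] at h3
  have h4 : (((n ^ (t + 1) * ∑ a ∈ Finset.Ioc t s, c a : ℕ)) : ℝ) ≤
      ((2 * M + n ^ (t + 1) * (s * K) : ℕ) : ℝ) := by
    push_cast
    exact h3
  exact_mod_cast h4

theorem le_of_pow8 {a b : ℕ} (h : a ^ 8 ≤ b ^ 8) : a ≤ b :=
  le_of_pow_le_pow_left₀ (by norm_num) (Nat.zero_le _) h

theorem size_pow {m N : ℕ} (hsz : 8 * N.size < m) : N ^ 8 ≤ 2 ^ m := by
  have h1 : N < 2 ^ N.size := Nat.lt_size_self N
  calc N ^ 8 ≤ (2 ^ N.size) ^ 8 := Nat.pow_le_pow_left h1.le 8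
    _ = 2 ^ (8 * N.size) := by rw [← pow_mul, mul_comm]
    _ ≤ 2 ^ m := Nat.pow_le_pow_right (by norm_num) hsz.le

theorem m_pow (m : ℕ) : m ^ 8 ≤ 8 ^ 8 * 2 ^ m := by
  set r := m / 8 with hr
  have h1 : r + 1 ≤ 2 ^ r := Nat.lt_two_pow_self
  have h2 : m ≤ 8 * 2 ^ r := by omega
  calc m ^ 8 ≤ (8 * 2 ^ r) ^ 8 := Nat.pow_le_pow_left h2 8
    _ = 8 ^ 8 * 2 ^ (8 * r) := by rw [mul_pow, ← pow_mul, mul_comm r 8]
    _ ≤ 8 ^ 8 * 2 ^ m := Nat.mul_le_mul_left _ (Nat.pow_le_pow_right (by norm_num) (by omega))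

theorem nmk {m N : ℕ} (hsz : 8 * N.size < m) : N * m * 2 ^ (3 * m / 4) ≤ 8 * 2 ^ m := by
  apply le_of_pow8
  calc (N * m * 2 ^ (3 * m / 4)) ^ 8 = N ^ 8 * m ^ 8 * 2 ^ (3 * m / 4 * 8) := by
        rw [mul_pow, mul_pow, ← pow_mul]
    _ ≤ 2 ^ m * (8 ^ 8 * 2 ^ m) * 2 ^ (6 * m) := by
        refine Nat.mul_le_mul (Nat.mul_le_mul (size_pow hsz) (m_pow m)) ?_
        exact Nat.pow_le_pow_right (by norm_num) (by omega)
    _ = (8 * 2 ^ m) ^ 8 := by
        rw [mul_pow, ← pow_mul]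
        ring

theorem mid_bound {m N t : ℕ} (hm : 1000 ≤ m) (hNt : N < (2 * m + 2) ^ t)
    (hsz : 8 * N.size < m) (c : ℕ → ℕ)
    (h : ∀ a : ℕ, 1 ≤ a → 64 * a ≤ m → (2 * m + 2) ^ a * c a ≤ 2 ^ m + (2 * m + 2) ^ a * 2 ^ (3 * m / 4)) :
    4 * (N * ∑ a ∈ Finset.Ioc t (m / 64), c a) ≤ 2 ^ m := by
  have h1 := geo (M := 2 ^ m) (K := 2 ^ (3 * m / 4)) (n := 2 * m + 2) (by omega) c t (m / 64)
    (fun a ha => by
      rw [Finset.mem_Ioc] at ha
      exact h a (by omega) (by omega))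
  set S := ∑ a ∈ Finset.Ioc t (m / 64), c a with hS
  set n := 2 * m + 2 with hn
  set K := 2 ^ (3 * m / 4) with hK
  have h2 := nmk hsz
  have h3 : n * N ≤ n ^ (t + 1) := by
    rw [pow_succ, mul_comm]
    exact Nat.mul_le_mul_right _ hNt.le
  -- real numbers
  have hn0 : (0 : ℝ) < n := by exact_mod_cast (by omega : 0 < n)
  have hnt0 : (0 : ℝ) < (n : ℝ) ^ (t + 1) := by positivity
  have h1' : (n : ℝ) ^ (t + 1) * S ≤ 2 * 2 ^ m + (n : ℝ) ^ (t + 1) * (((m / 64 : ℕ) : ℝ) * K) := by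
    exact_mod_cast h1
  have h4 : (S : ℝ) ≤ 2 * 2 ^ m / (n : ℝ) ^ (t + 1) + ((m / 64 : ℕ) : ℝ) * K := by
    rw [div_add' _ _ _ hnt0.ne', le_div_iff₀ hnt0]
    linarith
  have hN0 : (0 : ℝ) ≤ N := Nat.cast_nonneg _
  have h5 : (N : ℝ) * (2 * 2 ^ m / (n : ℝ) ^ (t + 1)) ≤ 2 * 2 ^ m / n := by
    rw [← mul_div_assoc, div_le_div_iff₀ hnt0 hn0]
    have h3' : (n : ℝ) * N ≤ (n : ℝ) ^ (t + 1) := by exact_mod_cast h3
    have : (0 : ℝ) ≤ 2 * 2 ^ m := by positivity
    nlinarith
  have h6 : (N : ℝ) * (((m / 64 : ℕ) : ℝ) * K) ≤ 2 ^ m / 8 := by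
    have h7 : (((m / 64 : ℕ) : ℝ)) ≤ m / 64 := Nat.cast_div_le
    have h8 : (N : ℝ) * m * K ≤ 8 * 2 ^ m := by exact_mod_cast h2
    have h9 : (N : ℝ) * (((m / 64 : ℕ) : ℝ) * K) ≤ N * ((m / 64) * K) := by
      refine mul_le_mul_of_nonneg_left ?_ hN0
      exact mul_le_mul_of_nonneg_right h7 (by positivity)
    have h10 : (N : ℝ) * ((m / 64) * K) = (N * m * K) / 64 := by ring
    rw [h10] at h9
    linarith
  have h7 : (2 : ℝ) * 2 ^ m / n ≤ 2 ^ m / 8 := by
    rw [div_le_div_iff₀ hn0 (by norm_num)]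
    have : (16 : ℝ) ≤ n := by exact_mod_cast (by omega : 16 ≤ n)
    have h0 : (0 : ℝ) ≤ 2 ^ m := by positivity
    nlinarith
  have h8 : (N : ℝ) * S ≤ 2 ^ m / 4 := by
    have := mul_le_mul_of_nonneg_left h4 hN0
    rw [mul_add] at this
    linarith
  have h9 : (4 : ℝ) * (N * S) ≤ 2 ^ m := by linarith
  exact_mod_cast h9

theorem det_main (hB : S_BIN) : ∀ m ≥ 1000, ∀ X : Finset (Fin m × Fin m), Good X →
    ∀ N t : ℕ, 1 ≤ N → N < (2 * m + 2) ^ t → 64 * t ≤ m → 8 * N.size < m →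
      Approx N (sL X t + sR X t : ℕ) ((ip X).card : ℕ) := by
  intro m hm X hG N t hN hNt ht hsz
  obtain ⟨hG1, hG2, hG3⟩ := hG
  have hL := mid_bound hm hNt hsz (cL X) hG1
  have hR := mid_bound hm hNt hsz (cR X) hG2
  rw [← mid_eq] at hL
  rw [← mid_eq'] at hR
  have h2m := two_pow_le X
  -- the pairs counted twice
  have hD : (((ip X).filter (fun p => p.1.card ≤ t)) ∩ ((ip X).filter (fun p => p.2.card ≤ t))).card ≤
      (small m).card * (small m).card := by
    rw [← card_product]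
    refine card_le_card fun p hp => ?_
    rw [mem_inter, mem_filter, mem_filter] at hp
    rw [mem_product, small, mem_filter, mem_filter]
    exact ⟨⟨mem_univ _, by omega⟩, ⟨mem_univ _, by omega⟩⟩
  set D := (((ip X).filter (fun p => p.1.card ≤ t)) ∩ ((ip X).filter (fun p => p.2.card ≤ t))).card
    with hDdef
  have hND : N * D ≤ 2 ^ m := by
    apply le_of_pow8
    calc (N * D) ^ 8 ≤ (N * ((small m).card * (small m).card)) ^ 8 :=
          Nat.pow_le_pow_left (Nat.mul_le_mul_left _ hD) 8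
      _ = N ^ 8 * ((small m).card ^ 8 * (small m).card ^ 8) := by rw [mul_pow, mul_pow]
      _ ≤ 2 ^ m * (2 ^ m * 2 ^ m) := Nat.mul_le_mul (size_pow hsz) (Nat.mul_le_mul (hB m) (hB m))
      _ = 2 ^ (3 * m) := by rw [← pow_add, ← pow_add]; congr 1; ring
      _ ≤ 2 ^ (m * 8) := Nat.pow_le_pow_right (by norm_num) (by omega)
      _ = (2 ^ m) ^ 8 := by rw [pow_mul]
  have hU : sL X t + sR X t ≤ (ip X).card + D := by
    rw [sL, sR, ← card_union_add_card_inter]
    refine Nat.add_le_add_right (card_le_card ?_) _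
    exact union_subset (filter_subset _ _) (filter_subset _ _)
  have hLo : (ip X).card ≤ sL X t + sR X t +
      (((ip X).filter (fun p => t < p.1.card ∧ 64 * p.1.card ≤ m)).card +
      ((ip X).filter (fun p => t < p.2.card ∧ 64 * p.2.card ≤ m)).card) := by
    have hsub : ip X ⊆ (((ip X).filter (fun p => p.1.card ≤ t)) ∪
        ((ip X).filter (fun p => p.2.card ≤ t))) ∪
        (((ip X).filter (fun p => t < p.1.card ∧ 64 * p.1.card ≤ m)) ∪
        ((ip X).filter (fun p => t < p.2.card ∧ 64 * p.2.card ≤ m))) := by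
      intro p hp
      simp only [mem_union, mem_filter, hp, true_and]
      rcases hG3 p hp with h | h
      · by_cases h' : p.1.card ≤ t
        · exact Or.inl (Or.inl h')
        · exact Or.inr (Or.inl ⟨by omega, h⟩)
      · by_cases h' : p.2.card ≤ t
        · exact Or.inl (Or.inr h')
        · exact Or.inr (Or.inr ⟨by omega, h⟩)
    refine (card_le_card hsub).trans ((card_union_le _ _).trans (Nat.add_le_add ?_ ?_))
    · exact card_union_le _ _
    · exact card_union_le _ _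
  set ML := ((ip X).filter (fun p => t < p.1.card ∧ 64 * p.1.card ≤ m)).card
  set MR := ((ip X).filter (fun p => t < p.2.card ∧ 64 * p.2.card ≤ m)).card
  set I := (ip X).card
  -- conclusion
  have hN0 : (0 : ℝ) < N := by exact_mod_cast hN
  have e1 : (N : ℝ) * D ≤ I := by exact_mod_cast hND.trans h2m
  have e2 : (N : ℝ) * (ML + MR) ≤ I := by
    have h1 : N * (ML + MR) ≤ I := by
      rw [mul_add]
      omega
    exact_mod_cast h1
  have e3 : ((sL X t + sR X t : ℕ) : ℝ) ≤ I + D := by exact_mod_cast hU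
  have e4 : (I : ℝ) ≤ ((sL X t + sR X t : ℕ) : ℝ) + (ML + MR) := by exact_mod_cast hLo
  have e5 : (D : ℝ) ≤ 1 / N * I := by
    rw [one_div, ← div_eq_inv_mul, le_div_iff₀ hN0]
    linarith
  have e6 : ((ML : ℝ) + MR) ≤ 1 / N * I := by
    rw [one_div, ← div_eq_inv_mul, le_div_iff₀ hN0]
    linarith
  constructor
  · have : (1 - 1 / (N : ℝ)) * I = I - 1 / N * I := by ring
    rw [this]
    linarith
  · have : (1 + 1 / (N : ℝ)) * I = I + 1 / N * I := by ring
    rw [this]
    linarith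

theorem t_DET : S_BIN → S_DET := fun hB => ⟨1000, det_main hB⟩

end Pool.Agent.J4H23.SB
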