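import Pool.Agent.J4H23.SB.Main
import Pool.Agent.J4H98.SB.Sum
import Pool.Agent.J4H98.SB.Pol
import Pool.Agent.J4H22.SB.Bin
import Pool.Agent.J4H22.SB.Grf
import Pool.Agent.J4H28.SB.Prb

/-!
# Smoothed analysis of counting independent sets in bipartite graphs: the theorem
-/

set_option autoImplicit false

namespace Pool.Agent.J4H23.SB

open Finset Pool.Agent.NPC Pool.Agent.H49R2.PC Pool.Agent.J4H63.DB

theorem final :
    ∃ (F : BGr × List Bool → ℕ) (A : List Bool → List Bool), PolyTime A ∧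
      (∀ s, A (bits s) = bits (F s)) ∧
      (∀ (m : ℕ) (X : Finset (Fin m × Fin m)), 2000 ≤ m → LogExpander X →
        ∀ w : List Bool, w ≠ [] → Approx w.length (F (gr m X, w)) (numIS (gr m X))) ∧
      ∀ k : ℕ, ∃ C m₀ : ℕ, ∀ m ≥ m₀, ∀ q : Fin m × Fin m → ℝ,
        (∀ e, C * Real.log m / m ≤ q e ∧ q e ≤ 1) →
        1 - 1 / (m : ℝ) ^ k ≤ pr q (fun X => ∀ Y : Finset (Fin m × Fin m), X ⊆ Y →
          ∀ w : List Bool, w ≠ [] → Approx w.length (F (gr m Y, w)) (numIS (gr m Y))) :=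
  main J4H98.SB.t_SUM J4H98.SB.t_POL J4H22.SB.t_GRF J4H22.SB.t_BIN (J4H28.SB.t_PRB J4H22.SB.t_BIN)

end Pool.Agent.J4H23.SB
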