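import Pool.Agent.J4H23.SB.Det

/-!
# Assembly of project SB
-/

set_option autoImplicit false

namespace Pool.Agent.J4H23.SB

open Finset Pool.Agent.NPC Pool.Agent.H49R2.PC Pool.Agent.J4H63.DB

/-! ### Monotonicity -/

theorem ip_mono {m : ℕ} {X Y : Finset (Fin m × Fin m)} (h : X ⊆ Y) : ip Y ⊆ ip X := by
  intro p hp
  rw [ip, mem_filter] at hp ⊢
  exact ⟨mem_univ _, fun u hu v hv hX => hp.2 u hu v hv (h hX)⟩

/-- good graphs stay good if edges are added -/
theorem Good.mono {m : ℕ} {X Y : Finset (Fin m × Fin m)} (h : X ⊆ Y) (hX : Good X) : Good Y := by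
  obtain ⟨h1, h2, h3⟩ := hX
  have hi := ip_mono h
  refine ⟨fun a ha ha' => le_trans ?_ (h1 a ha ha'), fun a ha ha' => le_trans ?_ (h2 a ha ha'),
    fun p hp => h3 p (hi hp)⟩
  · exact Nat.mul_le_mul_left _ (card_le_card (filter_subset_filter _ hi))
  · exact Nat.mul_le_mul_left _ (card_le_card (filter_subset_filter _ hi))

/-! ### The model -/

theorem wt_nonneg {m : ℕ} {q : Fin m × Fin m → ℝ} (h0 : ∀ e, 0 ≤ q e) (h1 : ∀ e, q e ≤ 1)
    (X : Finset (Fin m × Fin m)) : 0 ≤ wt q X := by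
  refine prod_nonneg fun e _ => ?_
  split_ifs
  · exact h0 e
  · linarith [h1 e]

theorem pr_mono {m : ℕ} {q : Fin m × Fin m → ℝ} (h0 : ∀ e, 0 ≤ q e) (h1 : ∀ e, q e ≤ 1)
    {P Q : Finset (Fin m × Fin m) → Prop} (h : ∀ X, P X → Q X) : pr q P ≤ pr q Q := by
  classical
  unfold pr
  refine sum_le_sum_of_subset_of_nonneg ?_ fun X _ _ => wt_nonneg h0 h1 X
  intro X hX
  rw [mem_filter] at hX ⊢
  exact ⟨mem_univ _, h X hX.2⟩

/-! ### Logarithmic expanders -/

/-- the right neighbours of a set of left vertices -/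
def nbL {m : ℕ} (X : Finset (Fin m × Fin m)) (A : Finset (Fin m)) : Finset (Fin m) :=
  univ.filter (fun v => ∃ u ∈ A, (u, v) ∈ X)

/-- the left neighbours of a set of right vertices -/
def nbR {m : ℕ} (X : Finset (Fin m × Fin m)) (B : Finset (Fin m)) : Finset (Fin m) :=
  univ.filter (fun u => ∃ v ∈ B, (u, v) ∈ X)

/-- The bipartite graph with parts of `m` vertices and edges `X` is a logarithmic expander: every set
of `a ≤ m / 64` vertices of one part has at least `min (2 a log₂ (2 m + 2), m / 2)` neighbours, and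
any two sets of more than `m / 64` vertices in different parts are joined by an edge. -/
def LogExpander {m : ℕ} (X : Finset (Fin m × Fin m)) : Prop :=
  (∀ A : Finset (Fin m), 64 * A.card ≤ m →
    (2 * m + 2) ^ (2 * A.card) ≤ 2 ^ (nbL X A).card ∨ m ≤ 2 * (nbL X A).card) ∧
  (∀ B : Finset (Fin m), 64 * B.card ≤ m →
    (2 * m + 2) ^ (2 * B.card) ≤ 2 ^ (nbR X B).card ∨ m ≤ 2 * (nbR X B).card) ∧
  ∀ A B : Finset (Fin m), m < 64 * A.card → m < 64 * B.card → ∃ u ∈ A, ∃ v ∈ B, (u, v) ∈ X

theorem cL_le {m : ℕ} (X : Finset (Fin m × Fin m)) (a : ℕ) :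
    cL X a ≤ ∑ A ∈ (univ : Finset (Finset (Fin m))).filter (fun A => A.card = a),
      2 ^ (m - (nbL X A).card) := by
  rw [cL, card_eq_sum_card_fiberwise (f := fun p => p.1)
    (t := (univ : Finset (Finset (Fin m))).filter (fun A => A.card = a))]
  · refine sum_le_sum fun A hA => ?_
    have h1 : (((ip X).filter (fun p => p.1.card = a)).filter (fun p => p.1 = A)).card ≤
        ((nbL X A)ᶜ.powerset).card := by
      refine card_le_card_of_injOn (fun p => p.2) ?_ ?_
      · intro p hp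
        simp only [coe_filter, Set.mem_ofPred_eq, mem_filter] at hp
        simp only [coe_powerset, Set.mem_preimage, Set.mem_powerset_iff, coe_subset]
        intro v hv
        rw [mem_compl, nbL, mem_filter]
        rintro ⟨-, u, hu, hX⟩
        have h2 := hp.1.1
        rw [ip, mem_filter] at h2
        exact h2.2 u (by rw [hp.2]; exact hu) v hv hX
      · intro p hp p' hp' h
        simp only [coe_filter, Set.mem_ofPred_eq, mem_filter] at hp hp'
        exact Prod.ext (hp.2.trans hp'.2.symm) h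
    refine h1.trans ?_
    rw [card_powerset, card_compl, Fintype.card_fin]
  · intro p hp
    simp only [coe_filter, Set.mem_ofPred_eq] at hp ⊢
    exact ⟨mem_univ _, hp.2⟩

theorem cR_le {m : ℕ} (X : Finset (Fin m × Fin m)) (a : ℕ) :
    cR X a ≤ ∑ B ∈ (univ : Finset (Finset (Fin m))).filter (fun A => A.card = a),
      2 ^ (m - (nbR X B).card) := by
  rw [cR, card_eq_sum_card_fiberwise (f := fun p => p.2)
    (t := (univ : Finset (Finset (Fin m))).filter (fun A => A.card = a))]
  · refine sum_le_sum fun B hB => ?_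
    have h1 : (((ip X).filter (fun p => p.2.card = a)).filter (fun p => p.2 = B)).card ≤
        ((nbR X B)ᶜ.powerset).card := by
      refine card_le_card_of_injOn (fun p => p.1) ?_ ?_
      · intro p hp
        simp only [coe_filter, Set.mem_ofPred_eq, mem_filter] at hp
        simp only [coe_powerset, Set.mem_preimage, Set.mem_powerset_iff, coe_subset]
        intro u hu
        rw [mem_compl, nbR, mem_filter]
        rintro ⟨-, v, hv, hX⟩
        have h2 := hp.1.1
        rw [ip, mem_filter] at h2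
        exact h2.2 u hu v (by rw [hp.2]; exact hv) hX
      · intro p hp p' hp' h
        simp only [coe_filter, Set.mem_ofPred_eq, mem_filter] at hp hp'
        exact Prod.ext h (hp.2.trans hp'.2.symm)
    refine h1.trans ?_
    rw [card_powerset, card_compl, Fintype.card_fin]
  · intro p hp
    simp only [coe_filter, Set.mem_ofPred_eq] at hp ⊢
    exact ⟨mem_univ _, hp.2⟩

theorem choose_pow_eight (hB : S_BIN) {m a : ℕ} (ha : 64 * a ≤ m) :
    ((univ : Finset (Finset (Fin m))).filter (fun A => A.card = a)).card * 2 ^ (m / 2) ≤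
      2 ^ (3 * m / 4) ∨ m < 8 := by
  by_cases hm : m < 8
  · exact Or.inr hm
  refine Or.inl (le_of_pow8 ?_)
  have h1 : ((univ : Finset (Finset (Fin m))).filter (fun A => A.card = a)).card ≤
      ((univ : Finset (Finset (Fin m))).filter (fun A => 64 * A.card ≤ m)).card := by
    refine card_le_card fun A hA => ?_
    rw [mem_filter] at hA ⊢
    exact ⟨hA.1, by omega⟩
  calc (((univ : Finset (Finset (Fin m))).filter (fun A => A.card = a)).card * 2 ^ (m / 2)) ^ 8
      = ((univ : Finset (Finset (Fin m))).filter (fun A => A.card = a)).card ^ 8 *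
          2 ^ (m / 2 * 8) := by rw [mul_pow, ← pow_mul]
    _ ≤ 2 ^ m * 2 ^ (4 * m) := Nat.mul_le_mul ((Nat.pow_le_pow_left h1 8).trans (hB m))
        (Nat.pow_le_pow_right (by norm_num) (by omega))
    _ = 2 ^ (m + 4 * m) := by rw [pow_add]
    _ ≤ 2 ^ (3 * m / 4 * 8) := Nat.pow_le_pow_right (by norm_num) (by omega)
    _ = (2 ^ (3 * m / 4)) ^ 8 := by rw [pow_mul]

theorem card_eq_le (m a : ℕ) :
    ((univ : Finset (Finset (Fin m))).filter (fun A => A.card = a)).card ≤ (2 * m + 2) ^ a := by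
  rw [Finset.univ_filter_card_eq, card_powersetCard, card_univ, Fintype.card_fin]
  exact (Nat.choose_le_pow m a).trans (Nat.pow_le_pow_left (by omega) _)

theorem good_aux (hB : S_BIN) {m a : ℕ} (hm : 8 ≤ m) (ha : 64 * a ≤ m) (f : Finset (Fin m) → ℕ)
    (hf : ∀ A, f A ≤ m)
    (h : ∀ A : Finset (Fin m), A.card = a →
      (2 * m + 2) ^ (2 * A.card) ≤ 2 ^ f A ∨ m ≤ 2 * f A) :
    (2 * m + 2) ^ a * ∑ A ∈ (univ : Finset (Finset (Fin m))).filter (fun A => A.card = a),
      2 ^ (m - f A) ≤ 2 ^ m + (2 * m + 2) ^ a * 2 ^ (3 * m / 4) := by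
  set n := 2 * m + 2 with hn
  have hn0 : 0 < n := by omega
  set T := (univ : Finset (Finset (Fin m))).filter (fun A => A.card = a) with hT
  have h1 : ∀ A ∈ T, n ^ (2 * a) * 2 ^ (m - f A) ≤ 2 ^ m + n ^ (2 * a) * 2 ^ (m / 2) := by
    intro A hA
    rw [hT, mem_filter] at hA
    rcases h A hA.2 with h2 | h2
    · rw [hA.2] at h2
      refine le_trans ?_ (Nat.le_add_right _ _)
      calc n ^ (2 * a) * 2 ^ (m - f A) ≤ 2 ^ f A * 2 ^ (m - f A) := Nat.mul_le_mul_right _ h2
        _ = 2 ^ m := by rw [← pow_add, Nat.add_sub_cancel' (hf A)]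
    · refine le_trans ?_ (Nat.le_add_left _ _)
      exact Nat.mul_le_mul_left _ (Nat.pow_le_pow_right (by norm_num) (by omega))
  have h2 : n ^ (2 * a) * ∑ A ∈ T, 2 ^ (m - f A) ≤ T.card * (2 ^ m + n ^ (2 * a) * 2 ^ (m / 2)) := by
    rw [mul_sum]
    refine (sum_le_sum h1).trans ?_
    rw [sum_const, smul_eq_mul]
  have h3 : T.card * 2 ^ (m / 2) ≤ 2 ^ (3 * m / 4) := by
    rcases choose_pow_eight hB ha with h3 | h3
    · exact h3
    · omega
  have h4 : T.card ≤ n ^ a := card_eq_le m a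
  have h5 : n ^ a * (n ^ a * ∑ A ∈ T, 2 ^ (m - f A)) ≤
      n ^ a * (2 ^ m + n ^ a * 2 ^ (3 * m / 4)) := by
    calc n ^ a * (n ^ a * ∑ A ∈ T, 2 ^ (m - f A)) = n ^ (2 * a) * ∑ A ∈ T, 2 ^ (m - f A) := by
          rw [two_mul, pow_add, mul_assoc]
      _ ≤ T.card * (2 ^ m + n ^ (2 * a) * 2 ^ (m / 2)) := h2
      _ = T.card * 2 ^ m + n ^ (2 * a) * (T.card * 2 ^ (m / 2)) := by ring
      _ ≤ n ^ a * 2 ^ m + n ^ (2 * a) * 2 ^ (3 * m / 4) :=
          Nat.add_le_add (Nat.mul_le_mul_right _ h4) (Nat.mul_le_mul_left _ h3)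
      _ = n ^ a * (2 ^ m + n ^ a * 2 ^ (3 * m / 4)) := by rw [two_mul a, pow_add]; ring
  exact Nat.le_of_mul_le_mul_left h5 (by positivity)

/-- logarithmic expanders are good -/
theorem LogExpander.good (hB : S_BIN) {m : ℕ} (hm : 8 ≤ m) {X : Finset (Fin m × Fin m)}
    (h : LogExpander X) : Good X := by
  obtain ⟨h1, h2, h3⟩ := h
  have hle : ∀ S : Finset (Fin m), S.card ≤ m := fun S => by
    have := card_le_univ S
    rwa [Fintype.card_fin] at this
  refine ⟨fun a _ ha => ?_, fun a _ ha => ?_, fun p hp => ?_⟩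
  · refine (Nat.mul_le_mul_left _ (cL_le X a)).trans ?_
    exact good_aux hB hm ha (fun A => (nbL X A).card) (fun A => hle _)
      (fun A hA => h1 A (by omega))
  · refine (Nat.mul_le_mul_left _ (cR_le X a)).trans ?_
    exact good_aux hB hm ha (fun A => (nbR X A).card) (fun A => hle _)
      (fun A hA => h2 A (by omega))
  · by_contra hcon
    push Not at hcon
    obtain ⟨u, hu, v, hv, hX⟩ := h3 p.1 p.2 hcon.1 hcon.2
    rw [ip, mem_filter] at hp
    exact hp.2 u hu v hv hX

/-! ### The algorithm on good graphs -/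

theorem tt_spec {m N : ℕ} (hm : 2000 ≤ m) (hsz : 8 * N.size < m) :
    N < (2 * m + 2) ^ (N.size / ((m + m + 2).size - 1) + 1) ∧
      64 * (N.size / ((m + m + 2).size - 1) + 1) ≤ m := by
  set n := m + m + 2 with hn
  have hs : 10 ≤ n.size := by
    by_contra hcon
    have h1 : n.size ≤ 9 := by omega
    have h2 := Nat.lt_size_self n
    have h3 : 2 ^ n.size ≤ 2 ^ 9 := Nat.pow_le_pow_right (by norm_num) h1
    omega
  set s := n.size - 1 with hsdef
  have hs9 : 9 ≤ s := by omega
  have h2 : 2 ^ s ≤ n := by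
    rw [← Nat.lt_size]
    omega
  constructor
  · have h3 : N.size < s * (N.size / s + 1) := Nat.lt_mul_div_succ _ (by omega)
    calc N < 2 ^ N.size := Nat.lt_size_self N
      _ ≤ 2 ^ (s * (N.size / s + 1)) := Nat.pow_le_pow_right (by norm_num) h3.le
      _ = (2 ^ s) ^ (N.size / s + 1) := by rw [pow_mul]
      _ ≤ (2 * m + 2) ^ (N.size / s + 1) := Nat.pow_le_pow_left (by omega) _
  · have h3 : N.size / s ≤ N.size / 9 := Nat.div_le_div_left hs9 (by norm_num)
    omega

theorem alg_good (hSUM : S_SUM) (hGRF : S_GRF) (hB : S_BIN) {m : ℕ} (hm : 2000 ≤ m)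
    {X : Finset (Fin m × Fin m)} (hX : Good X) (w : List Bool) (hw : w ≠ []) :
    Approx w.length (alg (gr m X, w)) (numIS (gr m X)) := by
  have hN : 1 ≤ w.length := List.length_pos_iff.2 hw
  have hr : (List.range m).Nodup := List.nodup_range
  have e1 : (gr m X).1 = List.range m := rfl
  have e2 : (gr m X).2.1 = List.range m := rfl
  have hv : ∀ t, val (gr m X).2.2 t (List.range m) (List.range m) = sL X t := fun t => by
    rw [hSUM _ _ _ _ hr hr]
    exact (hGRF m X t).2.1
  have hv' : ∀ t, val (sw (gr m X).2.2) t (List.range m) (List.range m) = sR X t := fun t => by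
    rw [hSUM _ _ _ _ hr hr]
    exact (hGRF m X t).2.2
  have hnum : numIS (gr m X) = (ip X).card := (hGRF m X 0).1
  unfold alg
  rw [hnum]
  simp only [e1, e2, List.length_range, tt]
  split_ifs with h
  · rw [hv]
    have h1 : sL X m = (ip X).card := by
      rw [sL, filter_true_of_mem]
      intro p _
      have := card_le_univ p.1
      rwa [Fintype.card_fin] at this
    rw [h1]
    have h2 : (0 : ℝ) ≤ 1 / (w.length : ℝ) * ((ip X).card : ℝ) := by positivity
    constructor
    · have : (1 - 1 / (w.length : ℝ)) * ((ip X).card : ℝ) =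
        (ip X).card - 1 / (w.length : ℝ) * (ip X).card := by ring
      rw [this]
      linarith
    · have : (1 + 1 / (w.length : ℝ)) * ((ip X).card : ℝ) =
        (ip X).card + 1 / (w.length : ℝ) * (ip X).card := by ring
      rw [this]
      linarith
  · rw [hv, hv']
    obtain ⟨h1, h2⟩ := tt_spec hm (not_le.1 h)
    exact det_main hB m (by omega) X hX w.length _ hN h1 h2 (not_le.1 h)

/-- **The theorem**, from its pieces -/
theorem main (hSUM : S_SUM) (hPOL : S_POL) (hGRF : S_GRF) (hB : S_BIN) (hPRB : S_PRB) :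
    ∃ (F : BGr × List Bool → ℕ) (A : List Bool → List Bool), PolyTime A ∧
      (∀ s, A (bits s) = bits (F s)) ∧
      (∀ (m : ℕ) (X : Finset (Fin m × Fin m)), 2000 ≤ m → LogExpander X →
        ∀ w : List Bool, w ≠ [] → Approx w.length (F (gr m X, w)) (numIS (gr m X))) ∧
      ∀ k : ℕ, ∃ C m₀ : ℕ, ∀ m ≥ m₀, ∀ q : Fin m × Fin m → ℝ,
        (∀ e, C * Real.log m / m ≤ q e ∧ q e ≤ 1) →
        1 - 1 / (m : ℝ) ^ k ≤ pr q (fun X => ∀ Y : Finset (Fin m × Fin m), X ⊆ Y →
          ∀ w : List Bool, w ≠ [] → Approx w.length (F (gr m Y, w)) (numIS (gr m Y))) := by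
  obtain ⟨A, hA, hA'⟩ := exists_polyTime hPOL 0
  refine ⟨alg, A, hA, hA', fun m X hm hX w hw => ?_, fun k => ?_⟩
  · exact alg_good hSUM hGRF hB hm (hX.good hB (by omega)) w hw
  · obtain ⟨C, m₀, h⟩ := hPRB k
    refine ⟨C, max m₀ 2000, fun m hm q hq => (h m (le_of_max_le_left hm) q hq).trans ?_⟩
    have hm2 : 2000 ≤ m := le_of_max_le_right hm
    have hl : 0 ≤ C * Real.log m / m := by
      have : 0 ≤ Real.log m := Real.log_nonneg (by exact_mod_cast (by omega : 1 ≤ m))
      positivity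
    refine pr_mono (fun e => hl.trans (hq e).1) (fun e => (hq e).2) fun X hX Y hXY w hw => ?_
    exact alg_good hSUM hGRF hB hm2 (hX.mono hXY) w hw

end Pool.Agent.J4H23.SB
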