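import Pool.Agent.J4H63.DB.Transfer

/-!
# Small noise does not help: definitions and pieces

PROJECT NH (helper23), row MP_a7c826_lc, the counterpart of project SB.  THEOREM: for every `k ≥ 1`, if there is a randomised
polynomial-time algorithm which, for all host graphs `H` with parts of `m = 2 ^ (k s)` vertices, approximates
`i(H ∪ X)` with probability `≥ 9 / 10` (over its random bits and the noise `X`, in which all pairs are edges
independently with probability `m ^ (- 1 - 1 / k)`), then there is an FPRAS for `i` on all bipartite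
graphs.  So noise of mean degree `m ^ (- 1 / k)` does not help, while noise of mean degree `C log m` (project SB) makes the
problem easy.

Proof: put `G` into the corner of a host with `m ≥ (100 n) ^ k`; with probability `≥ 99 / 100` no edge of the noise meets `G`, and then
`i(G) = i(H ∪ X) * 2 ^ n / i(X)`; the algorithm is used for both.
-/

set_option autoImplicit false

namespace Pool.Agent.J4H23.SB

open Finset Pool.Agent.NPC Pool.Agent.H49R2.PC Pool.Agent.J4H63.DB

/-- The noise given by the string `r` of random bits: the pair `(u, v)` is an edge if the block of `J`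
bits which belongs to it has only ones (so with probability `2 ^ (-J)`). -/
def nz (m J : ℕ) (r : List Bool) (u v : ℕ) : Bool :=
  ((r.drop ((u * m + v) * J)).take J).all id

/-- The bipartite graph with the parts `{0, …, m - 1}`, `{0, …, m - 1}` whose edges are those pairs which
are in the list `H` (the host graph) and those of the noise. -/
def noisy (m : ℕ) (H : List (ℕ × ℕ)) (J : ℕ) (r : List Bool) : BGr :=
  (List.range m, List.range m,
    (prodL (List.range m) (List.range m)).filter (fun e => decide (e ∈ H) || nz m J r e.1 e.2))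

/-- An FPRAS for `i` on all bipartite graphs with noise: `m = 2 ^ (k s)`, and every pair is an edge of
the noise with probability `2 ^ (- (k + 1) s) = m ^ (- 1 - 1 / k)`.  For every host graph the output
is, with probability at least `9 / 10` over the noise and the random bits of the algorithm, within the
relative error `1 / N`. -/
def SmoothedFPRAS (k : ℕ) : Prop :=
  ∃ (F : BGr × ℕ × List Bool → ℕ × ℕ) (A : List Bool → List Bool) (p : Polynomial ℕ),
    PolyTime A ∧ (∀ s, A (bits s) = bits (F s)) ∧
    ∀ (s m J : ℕ), m = 2 ^ (k * s) → J = (k + 1) * s → ∀ (H : List (ℕ × ℕ)) (N : ℕ), 2 ≤ N →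
      9 * 2 ^ (m * m * J + p.eval (m + N)) ≤
        10 * {x : List Bool × List Bool | x.1.length = m * m * J ∧ x.2.length = p.eval (m + N) ∧
          Approx N (((F (noisy m H J x.1, N, x.2)).1 : ℝ) / (F (noisy m H J x.1, N, x.2)).2)
            (numIS (noisy m H J x.1))}.ncard

/-! ## The reduction -/

/-- the parameter `s` -/
def ss (G : BGr) : ℕ := (100 * (nV G + 1)).size

/-- `G` as a host graph with the vertices `0, 1, …` -/
def emb (G : BGr) : List (ℕ × ℕ) :=
  (prodL (List.range G.1.length) (List.range G.2.1.length)).filter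
    (fun e => decide ((G.1.getD e.1 0, G.2.1.getD e.2 0) ∈ G.2.2))

/-- the reduction, `m = 2 ^ (k s)`, `J = (k + 1) s`, `P = p (m + 4 N)` -/
def redAux (F : BGr × ℕ × List Bool → ℕ × ℕ) (m J P N : ℕ) (G : BGr) (r : List Bool) : ℕ × ℕ :=
  ((F (noisy m (emb G) J (r.take (m * m * J)), 4 * N, (r.drop (m * m * J)).take P)).1 *
      (F (noisy m [] J (r.take (m * m * J)), 4 * N, ((r.drop (m * m * J)).drop P).take P)).2 *
      2 ^ nV G,
    (F (noisy m (emb G) J (r.take (m * m * J)), 4 * N, (r.drop (m * m * J)).take P)).2 *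
      (F (noisy m [] J (r.take (m * m * J)), 4 * N, ((r.drop (m * m * J)).drop P).take P)).1)

/-- the reduction -/
def red (F : BGr × ℕ × List Bool → ℕ × ℕ) (p : Polynomial ℕ) (k : ℕ) (x : BGr × ℕ × List Bool) :
    ℕ × ℕ :=
  redAux F (2 ^ (k * ss x.1)) ((k + 1) * ss x.1) (p.eval (2 ^ (k * ss x.1) + 4 * x.2.1)) x.2.1 x.1
    x.2.2

/-! ## The pieces (theorem names `t_X : S_X`) -/

/-- (IDN) if the noise avoids the rows of `G` and the columns of `G` -/
def S_IDN : Prop := ∀ (G : BGr) (m J : ℕ) (r : List Bool), IsBip G → nV G ≤ m →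
  (∀ u v : ℕ, u < m → v < m → (u < G.1.length ∨ v < G.2.1.length) → nz m J r u v = false) →
  numIS (noisy m (emb G) J r) * 2 ^ nV G = numIS G * numIS (noisy m [] J r)

/-- (TCH) the noise seldom meets `a` rows and `b` columns -/
def S_TCH : Prop := ∀ m J a b : ℕ, a ≤ m → b ≤ m →
  {r : List Bool | r.length = m * m * J ∧
    ∃ u v : ℕ, u < m ∧ v < m ∧ (u < a ∨ v < b) ∧ nz m J r u v = true}.ncard * 2 ^ J ≤
    (a + b) * m * 2 ^ (m * m * J)

/-- (PLY) the reduction is computed in polynomial time.  (`m = 2 ^ (k s)` is bounded by a polynomial in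
`nV G`: it is a `UPoly`, e.g. as `2 ^ s ≤ 200 (nV G + 1)`; then as `p_gad`, `transfer`.) -/
def S_PLY : Prop := ∀ (F : BGr × ℕ × List Bool → ℕ × ℕ) (p : Polynomial ℕ) (k : ℕ),
  NPC.Poly F → NPC.Poly (red F p k)

/-- (RAT) the ratio -/
def S_RAT : Prop := ∀ (N a1 a2 b1 b2 n I0 I1 I2 : ℕ), 2 ≤ N → 1 ≤ I0 → 1 ≤ I1 → 1 ≤ I2 →
  I1 * 2 ^ n = I0 * I2 → Approx (4 * N) ((a1 : ℝ) / a2) I1 → Approx (4 * N) ((b1 : ℝ) / b2) I2 →
  Approx N (((a1 * b2 * 2 ^ n : ℕ) : ℝ) / ((a2 * b1 : ℕ) : ℝ)) I0

/-- (CTG) counting strings: `r = x ++ y ++ z`, each of the two runs fails for at most one tenth, the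
noise is bad for at most `1 / 100` -/
def S_CTG : Prop := ∀ (l P q : ℕ) (A B : List Bool → List Bool → Prop) (T : List Bool → Prop),
  l + P + P ≤ q →
  9 * 2 ^ (l + P) ≤ 10 * {x : List Bool × List Bool | x.1.length = l ∧ x.2.length = P ∧ A x.1 x.2}.ncard →
  9 * 2 ^ (l + P) ≤ 10 * {x : List Bool × List Bool | x.1.length = l ∧ x.2.length = P ∧ B x.1 x.2}.ncard →
  100 * {r : List Bool | r.length = l ∧ T r}.ncard ≤ 2 ^ l →
  3 * 2 ^ q ≤ 4 * {r : List Bool | r.length = q ∧ A (r.take l) ((r.drop l).take P) ∧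
    B (r.take l) (((r.drop l).drop P).take P) ∧ ¬ T (r.take l)}.ncard

end Pool.Agent.J4H23.SB
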