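import Pool.Agent.J4H63.DB.PolyT

/-!
# Smoothed analysis of counting independent sets in bipartite graphs: definitions and pieces

PROJECT SB (helper23), row MP_a7c826_lc.  THEOREM: there is ONE deterministic algorithm `F`
(polynomial in the input and in `1 / ε = N`) such that for each `k` there are `C`, `m₀` with: for
`m ≥ m₀` and ALL edge probabilities `q e` with `C log m / m ≤ q e ≤ 1` the random bipartite graph with
parts of `m` vertices and independent edges has, with probability `≥ 1 - m ^ (-k)`, the property that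
`F` approximates `i(G)` within `1 ± 1 / N` for ALL `N`.  (So: any adversarial graph plus noise.)

Proof: `i(G) = 2 ^ m + 2 ^ m + …`; count exactly the independent pairs `(A, B)` with `|A| ≤ t`, and those
with `|B| ≤ t`, where `n ^ t > N`, `n = 2 m + 2`; the rest is small.
-/

set_option autoImplicit false

namespace Pool.Agent.J4H23.SB

open Finset Pool.Agent.NPC Pool.Agent.H49R2.PC Pool.Agent.J4H63.DB

/-! ## Graphs and the random model -/

/-- The bipartite graph with two parts of `m` vertices and the set `X` of edges. -/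
def gr (m : ℕ) (X : Finset (Fin m × Fin m)) : BGr :=
  (List.range m, List.range m,
    (((List.finRange m) ×ˢ (List.finRange m)).filter (fun e => e ∈ X)).map
      (fun e => (e.1.val, e.2.val)))

/-- The probability of the set `X` of edges, if the edge `e` is present with probability `q e`,
independently. -/
noncomputable def wt {m : ℕ} (q : Fin m × Fin m → ℝ) (X : Finset (Fin m × Fin m)) : ℝ :=
  ∏ e, if e ∈ X then q e else 1 - q e

open Classical in
/-- The probability of the property `P` of the random bipartite graph with the edge probabilities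
`q`. -/
noncomputable def pr {m : ℕ} (q : Fin m × Fin m → ℝ) (P : Finset (Fin m × Fin m) → Prop) : ℝ :=
  ∑ X ∈ univ.filter P, wt q X

/-! ## Independent pairs -/

/-- The independent pairs of sets of vertices. -/
def ip {m : ℕ} (X : Finset (Fin m × Fin m)) : Finset (Finset (Fin m) × Finset (Fin m)) :=
  univ.filter (fun p => ∀ u ∈ p.1, ∀ v ∈ p.2, (u, v) ∉ X)

/-- The number of the independent pairs `(A, B)` with `|A| = a`. -/
def cL {m : ℕ} (X : Finset (Fin m × Fin m)) (a : ℕ) : ℕ := ((ip X).filter (fun p => p.1.card = a)).card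

/-- The number of the independent pairs `(A, B)` with `|B| = a`. -/
def cR {m : ℕ} (X : Finset (Fin m × Fin m)) (a : ℕ) : ℕ := ((ip X).filter (fun p => p.2.card = a)).card

/-- The number of the independent pairs `(A, B)` with `|A| ≤ t`. -/
def sL {m : ℕ} (X : Finset (Fin m × Fin m)) (t : ℕ) : ℕ := ((ip X).filter (fun p => p.1.card ≤ t)).card

/-- The number of the independent pairs `(A, B)` with `|B| ≤ t`. -/
def sR {m : ℕ} (X : Finset (Fin m × Fin m)) (t : ℕ) : ℕ := ((ip X).filter (fun p => p.2.card ≤ t)).card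

/-- The good graphs. -/
def Good {m : ℕ} (X : Finset (Fin m × Fin m)) : Prop :=
  (∀ a : ℕ, 1 ≤ a → 64 * a ≤ m → (2 * m + 2) ^ a * cL X a ≤ 2 ^ m + (2 * m + 2) ^ a * 2 ^ (3 * m / 4)) ∧
  (∀ a : ℕ, 1 ≤ a → 64 * a ≤ m → (2 * m + 2) ^ a * cR X a ≤ 2 ^ m + (2 * m + 2) ^ a * 2 ^ (3 * m / 4)) ∧
  ∀ p ∈ ip X, 64 * p.1.card ≤ m ∨ 64 * p.2.card ≤ m

/-! ## The algorithm -/

/-- one step: the vertex `v` is put into the left set or not -/
def bs (E : List (ℕ × ℕ)) (t v : ℕ) (s : List ℕ × List ℕ) : List (List ℕ × List ℕ) :=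
  if s.1.length < t then [s, (v :: s.1, nonnbrs E v s.2)] else [s]

/-- all sets `A` of at most `t` left vertices, each with the list of the right vertices which are not
adjacent to `A` -/
def enum (E : List (ℕ × ℕ)) (t : ℕ) (L R : List ℕ) : List (List ℕ × List ℕ) :=
  L.foldl (fun st v => st.flatMap (bs E t v)) [([], R)]

/-- the number of independent pairs with at most `t` left vertices -/
def val (E : List (ℕ × ℕ)) (t : ℕ) (L R : List ℕ) : ℕ :=
  ((enum E t L R).map (fun s => 2 ^ s.2.length)).sum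

/-- the cut-off: `(|L| + |R| + 2) ^ tt > N` -/
def tt (N : ℕ) (L R : List ℕ) : ℕ := N.size / ((L.length + R.length + 2).size - 1) + 1

/-- the algorithm; `N` is the length of the string `w` -/
def alg (x : BGr × List Bool) : ℕ :=
  if x.1.1.length ≤ 8 * x.2.length.size then val x.1.2.2 x.1.1.length x.1.1 x.1.2.1
  else val x.1.2.2 (tt x.2.length x.1.1 x.1.2.1) x.1.1 x.1.2.1 +
    val (sw x.1.2.2) (tt x.2.length x.1.1 x.1.2.1) x.1.2.1 x.1.1

/-! ## The pieces (theorem names `t_X : S_X`) -/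

/-- (SUM) `val` counts the independent pairs with at most `t` left vertices.  (Put
`T [] j B = 2 ^ |B|`, `T (v :: L) j B = T L j B + [j < t] T L (j + 1) (nonnbrs E v B)`; the sum over
`foldl` is `∑ T`; compare with `indep` as in `cnt_insert`.) -/
def S_SUM : Prop := ∀ (E : List (ℕ × ℕ)) (t : ℕ) (L R : List ℕ), L.Nodup → R.Nodup →
  val E t L R = ((indep E L.toFinset R.toFinset).filter (fun p => p.1.card ≤ t)).card

/-- (LEN) the number of the states -/
def S_LEN : Prop := ∀ (E : List (ℕ × ℕ)) (t : ℕ) (L R : List ℕ),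
  (enum E t L R).length ≤ 2 ^ L.length ∧ (enum E t L R).length ≤ (L.length + 1) ^ t

/-- (POL) the algorithm runs in polynomial time; hypothesis `S_LEN`.  (As `p_phase` in
`J4H63.DB.PolyT`; no `take` is needed by `S_LEN`, but one must bound the states for all inputs:
`2 ^ |L| ≤ 2 ^ (8 size N) ≤ (2 N) ^ 8` in the first case, and
`(|L| + 1) ^ tt ≤ n ^ tt ≤ 2 ^ (2 size N + size n) ≤ 8 N ^ 2 n`, `n = |L| + |R| + 2`, in the second.
As `Poly.ite` needs both branches for all inputs, write the first one as `val E t' L R` with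
`t' = if |L| ≤ 8 size N then |L| else 0`.) -/
def S_POL : Prop := NPC.Poly alg

/-- (GRF) the counts of `gr m X` -/
def S_GRF : Prop := ∀ (m : ℕ) (X : Finset (Fin m × Fin m)) (t : ℕ),
  numIS (gr m X) = (ip X).card ∧
  ((indep (gr m X).2.2 (List.range m).toFinset (List.range m).toFinset).filter
    (fun p => p.1.card ≤ t)).card = sL X t ∧
  ((indep (sw (gr m X).2.2) (List.range m).toFinset (List.range m).toFinset).filter
    (fun p => p.1.card ≤ t)).card = sR X t

/-- (BIN) few small sets -/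
def S_BIN : Prop := ∀ m : ℕ, ((univ : Finset (Finset (Fin m))).filter (fun A => 64 * A.card ≤ m)).card ^ 8
  ≤ 2 ^ m

/-- (DET) on good graphs the two partial counts are a good approximation -/
def S_DET : Prop := ∃ m₁ : ℕ, ∀ m ≥ m₁, ∀ X : Finset (Fin m × Fin m), Good X →
  ∀ N t : ℕ, 1 ≤ N → N < (2 * m + 2) ^ t → 64 * t ≤ m → 8 * N.size < m →
    Approx N (sL X t + sR X t : ℕ) ((ip X).card : ℕ)

/-- (AVO) the probability of no edge in `S` -/
def S_AVO : Prop := ∀ (m : ℕ) (q : Fin m × Fin m → ℝ) (S : Finset (Fin m × Fin m)),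
  pr q (fun X => Disjoint X S) = ∏ e ∈ S, (1 - q e)

/-- (EXP) the mean number of independent pairs with `|A| = a`, `|B| = a` -/
def S_EXP : Prop := ∀ (m a : ℕ) (q : Fin m × Fin m → ℝ) (l : ℝ), 0 ≤ l → l ≤ 1 →
  (∀ e, l ≤ q e ∧ q e ≤ 1) →
  ∑ X, wt q X * (cL X a : ℝ) ≤ (m.choose a : ℝ) * (1 + (1 - l) ^ a) ^ m ∧
  ∑ X, wt q X * (cR X a : ℝ) ≤ (m.choose a : ℝ) * (1 + (1 - l) ^ a) ^ m

/-- (BIG) large independent pairs are unlikely -/
def S_BIG : Prop := ∀ (m : ℕ) (q : Fin m × Fin m → ℝ) (l : ℝ), 0 ≤ l → l ≤ 1 →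
  (∀ e, l ≤ q e ∧ q e ≤ 1) →
  pr q (fun X => ¬ ∀ p ∈ ip X, 64 * p.1.card ≤ m ∨ 64 * p.2.card ≤ m) ≤
    4 ^ m * Real.exp (- l * (m / 64 : ℝ) ^ 2)

/-- (PRB) good graphs are likely; hypotheses `S_AVO`, `S_EXP`, `S_BIG`, `S_BIN`.  With
`l = C log m / m`, `C = 4 (k + 7)` or larger: Markov for every `a` with `l a ≤ 1`
(`(1 + (1 - l) ^ a) / 2 ≤ exp (- l a / 4)`) and with `l a > 1`
(`(1 + exp (-1)) / 2 < 2 ^ (- 1 / 2)`, `m.choose a ≤ 2 ^ (m / 8)`). -/
def S_PRB : Prop := ∀ k : ℕ, ∃ C m₀ : ℕ, ∀ m ≥ m₀, ∀ q : Fin m × Fin m → ℝ,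
  (∀ e, C * Real.log m / m ≤ q e ∧ q e ≤ 1) → 1 - 1 / (m : ℝ) ^ k ≤ pr q (fun X => Good X)

end Pool.Agent.J4H23.SB
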